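import Pool.Agent.N912.RC.Stm

/-!
# The order `Qd t c` in the ring of integers of its field of fractions

Project RC (helper912), task RC0 (subtask 2014).
-/

set_option autoImplicit false
set_option linter.unusedSectionVars false

namespace Pool.Agent.N615.RC

open NumberField QuadraticAlgebra
open Pool.Agent.W78.GA (Qd nm)

/-- the field of fractions of `Qd t c` -/
abbrev KK (t c : ℤ) : Type := QuadraticAlgebra ℚ (-(c : ℚ)) (t : ℚ)

variable {t c : ℤ}

theorem fact_KK (h : t ^ 2 < 4 * c) : Fact (∀ r : ℚ, r ^ 2 ≠ -(c : ℚ) + (t : ℚ) * r) := by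
  refine ⟨fun r hr => ?_⟩
  have h1 : (t : ℚ) ^ 2 < 4 * c := by exact_mod_cast h
  nlinarith [sq_nonneg (2 * r - t)]

variable [hf : Fact (∀ r : ℚ, r ^ 2 ≠ -(c : ℚ) + (t : ℚ) * r)]

instance numberField_KK : NumberField (KK t c) where
  to_charZero := inferInstance
  to_finiteDimensional :=
    inferInstanceAs (Module.Finite ℚ (QuadraticAlgebra ℚ (-(c : ℚ)) (t : ℚ)))

theorem finrank_KK : Module.finrank ℚ (KK t c) = 2 :=
  QuadraticAlgebra.finrank_eq_two (R := ℚ) (a := -(c : ℚ)) (b := (t : ℚ))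

theorem om_eq : (ω : KK t c) * ω = -(c : KK t c) + (t : KK t c) * ω := by
  ext <;> simp

theorem complex_KK (h : t ^ 2 < 4 * c) : IsTotallyComplex (KK t c) where
  isComplex v := by
    rw [← InfinitePlace.not_isReal_iff_isComplex]
    intro hv
    have h1 := congrArg (InfinitePlace.embedding_of_isReal hv) (om_eq (t := t) (c := c))
    simp only [map_mul, map_add, map_neg, map_intCast] at h1
    set r : ℝ := InfinitePlace.embedding_of_isReal hv (ω : KK t c)
    have h2 : (t : ℝ) ^ 2 < 4 * c := by exact_mod_cast h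
    nlinarith [sq_nonneg (2 * r - t)]

/-- the inclusion in the field -/
def inc (t c : ℤ) : Qd t c →+* KK t c where
  toFun z := ⟨z.re, z.im⟩
  map_one' := by ext <;> simp
  map_zero' := by ext <;> simp
  map_mul' z w := by ext <;> simp
  map_add' z w := by ext <;> simp

theorem inc_inj : Function.Injective (inc t c) := by
  intro z w h
  have h1 := congrArg QuadraticAlgebra.re h
  have h2 := congrArg QuadraticAlgebra.im h
  simp only [inc, RingHom.coe_mk, MonoidHom.coe_mk, OneHom.coe_mk] at h1 h2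
  ext
  · exact_mod_cast h1
  · exact_mod_cast h2

theorem inc_int (z : Qd t c) : IsIntegral ℤ (inc t c z) := by
  have h : IsIntegral ℤ z := Algebra.IsIntegral.isIntegral z
  exact h.map (inc t c).toIntAlgHom

/-- the inclusion in the ring of integers -/
def ph (t c : ℤ) [Fact (∀ r : ℚ, r ^ 2 ≠ -(c : ℚ) + (t : ℚ) * r)] : Qd t c →+* 𝓞 (KK t c) where
  toFun z := ⟨inc t c z, inc_int z⟩
  map_one' := RingOfIntegers.ext (map_one (inc t c))
  map_zero' := RingOfIntegers.ext (map_zero (inc t c))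
  map_mul' z w := RingOfIntegers.ext (map_mul (inc t c) z w)
  map_add' z w := RingOfIntegers.ext (map_add (inc t c) z w)

theorem ph_coe (z : Qd t c) : (ph t c z : KK t c) = inc t c z := rfl

theorem norm_inc (z : Qd t c) :
    Algebra.norm ℚ (inc t c z) = ((z.re ^ 2 + t * z.re * z.im + c * z.im ^ 2 : ℤ) : ℚ) := by
  have h1 : Algebra.norm ℚ (inc t c z) = QuadraticAlgebra.norm (inc t c z) :=
    det_toLinearMap_eq_norm (inc t c z)
  rw [h1]
  simp [QuadraticAlgebra.norm, inc]
  ring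

theorem absNorm_ph (z : Qd t c) : Ideal.absNorm (Ideal.span {ph t c z}) = nm z := by
  rw [Ideal.absNorm_span_singleton]
  unfold nm
  congr 1
  have h1 := Algebra.coe_norm_int (ph t c z)
  rw [ph_coe, norm_inc] at h1
  exact_mod_cast h1

theorem int_of_sq {D : ℕ} {y : ℚ} {m : ℤ} (h : (D : ℚ) * y ^ 2 = m) :
    ∃ n : ℤ, (D : ℚ) * y = n := by
  have h1 : IsIntegral ℤ ((D : ℚ) * y) := by
    refine ⟨Polynomial.X ^ 2 - Polynomial.C (D * m), Polynomial.monic_X_pow_sub_C _ two_ne_zero, ?_⟩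
    simp only [Polynomial.eval₂_sub, Polynomial.eval₂_X_pow, Polynomial.eval₂_C]
    simp only [algebraMap_int_eq, eq_intCast, Int.cast_mul, Int.cast_natCast, ← h]
    ring
  obtain ⟨n, hn⟩ := IsIntegrallyClosed.isIntegral_iff.1 h1
  exact ⟨n, hn.symm⟩

theorem int_coords {w : KK t c} (hw : IsIntegral ℤ w) :
    ∃ T M : ℤ, 2 * w.re + t * w.im = T ∧ w.re ^ 2 + t * w.re * w.im + c * w.im ^ 2 = M := by
  have h1 : IsIntegral ℤ (star w) := hw.map (starRingEnd (KK t c)).toIntAlgHom
  have h2 : IsIntegral ℤ (w + star w) := hw.add h1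
  have h3 : IsIntegral ℤ (w * star w) := hw.mul h1
  rw [← algebraMap_trace_eq_add_star] at h2
  rw [← algebraMap_norm_eq_mul_star] at h3
  have inj : Function.Injective (algebraMap ℚ (KK t c)) := (algebraMap ℚ (KK t c)).injective
  have h4 := (isIntegral_algebraMap_iff inj).1 h2
  have h5 := (isIntegral_algebraMap_iff inj).1 h3
  obtain ⟨T, hT⟩ := IsIntegrallyClosed.isIntegral_iff.1 h4
  obtain ⟨M, hM⟩ := IsIntegrallyClosed.isIntegral_iff.1 h5
  refine ⟨T, M, ?_, ?_⟩
  · rw [← eq_intCast (algebraMap ℤ ℚ) T, hT, QuadraticAlgebra.trace_def]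
  · rw [← eq_intCast (algebraMap ℤ ℚ) M, hM]
    simp [QuadraticAlgebra.norm]
    ring

theorem mem_inc (h : t ^ 2 < 4 * c) {w : KK t c} (hw : IsIntegral ℤ w) :
    ∃ z, inc t c z = ((2 * (4 * c - t ^ 2).toNat : ℕ) : KK t c) * w := by
  obtain ⟨T, M, hT, hM⟩ := int_coords hw
  set D : ℕ := (4 * c - t ^ 2).toNat with hD
  have hD' : (D : ℤ) = 4 * c - t ^ 2 := Int.toNat_of_nonneg (by linarith)
  have hDq : (D : ℚ) = 4 * c - t ^ 2 := by exact_mod_cast congrArg (Int.cast : ℤ → ℚ) hD'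
  obtain ⟨n, hn⟩ := int_of_sq (D := D) (y := w.im) (m := 4 * M - T ^ 2) (by
    push_cast
    rw [← hT, ← hM, hDq]
    ring)
  refine ⟨⟨D * T - t * n, 2 * n⟩, ?_⟩
  ext
  · simp [inc]
    rw [← hT, ← hn]
    ring
  · simp [inc]
    rw [← hn]
    ring

theorem rc0 : Pool.Agent.N912.RC.S_RC0 := by
  intro t c h
  have := fact_KK h
  refine ⟨KK t c, inferInstance, inferInstance, complex_KK h, ph t c,
    2 * (4 * c - t ^ 2).toNat, finrank_KK, ?_, ?_, absNorm_ph, ?_⟩
  · have : 0 < (4 * c - t ^ 2).toNat := by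
      rw [Int.lt_toNat]
      push_cast
      linarith
    omega
  · intro z w hzw
    exact inc_inj (congrArg (fun x : 𝓞 (KK t c) => (x : KK t c)) hzw)
  · intro w
    obtain ⟨z, hz⟩ := mem_inc h w.2
    refine ⟨z, RingOfIntegers.ext ?_⟩
    rw [ph_coe, hz]
    push_cast
    rfl

end Pool.Agent.N615.RC
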