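import Pool.Agent.W78.GA.Basic

/-!
# Elements of prime norm in an imaginary quadratic order

Project RC (helper912), task RC6 (subtask 2020), first part.
-/

set_option autoImplicit false

namespace Pool.Agent.N615.RC

open Finset
open Pool.Agent.W78.GA

variable {t c : ℤ}

open scoped Classical in
/-- the elements of norm `n` -/
noncomputable def Rs (t c : ℤ) (n : ℕ) : Finset (Qd t c) :=
  (ball t c (n : ℝ)).filter fun z => nm z = n

theorem mem_Rs (hD : t ^ 2 < 4 * c) {n : ℕ} (hn : 1 ≤ n) {z : Qd t c} :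
    z ∈ Rs t c n ↔ nm z = n := by
  unfold Rs
  rw [mem_filter, mem_ball hD]
  constructor
  · exact fun h => h.2
  · intro h
    rw [h]
    exact ⟨⟨hn, le_rfl⟩, rfl⟩

theorem cancel (hD : t ^ 2 < 4 * c) {w x y : Qd t c} (hw : nm w ≠ 0) (h : w * x = w * y) :
    x = y := by
  have h1 : nm (w * (x - y)) = 0 := by
    rw [mul_sub, h, sub_self, nm_zero]
  rw [nm_mul] at h1
  have h2 := (mul_eq_zero.1 h1).resolve_left hw
  exact sub_eq_zero.1 ((nm_eq_zero hD).1 h2)

/-- primitive: a prime `p` does not divide an element of norm `p` -/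
theorem not_dvd (hD : t ^ 2 < 4 * c) {p : ℕ} (hp : p.Prime) {z : Qd t c} (hz : nm z = p)
    (h : (p : ℤ) ∣ z.im) : False := by
  have h1 := nm_cast hD z
  rw [hz] at h1
  have hp' : Prime (p : ℤ) := Nat.prime_iff_prime_int.1 hp
  obtain ⟨b, hb⟩ := h
  have h2 : (p : ℤ) ∣ z.re ^ 2 := by
    refine ⟨1 - t * z.re * b - c * b * z.im, ?_⟩
    rw [hb] at h1 ⊢
    linear_combination -h1
  obtain ⟨a, ha⟩ := hp'.dvd_of_dvd_pow h2
  rw [ha, hb] at h1
  have h3 : (1 : ℤ) = p * (a ^ 2 + t * a * b + c * b ^ 2) := by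
    have hp0 : (p : ℤ) ≠ 0 := hp'.ne_zero
    apply mul_left_cancel₀ hp0
    linear_combination h1
  have h4 : (p : ℤ) ∣ 1 := ⟨_, h3⟩
  exact hp'.not_dvd_one h4

/-- `p` divides one of the two determinants -/
theorem dvd_or (hD : t ^ 2 < 4 * c) {p : ℕ} (hp : p.Prime) {z w : Qd t c} (hz : nm z = p)
    (hw : nm w = p) : (p : ℤ) ∣ z.re * w.im - z.im * w.re ∨
      (p : ℤ) ∣ z.re * (star w).im - z.im * (star w).re := by
  have hp' : Prime (p : ℤ) := Nat.prime_iff_prime_int.1 hp
  rw [← hp'.dvd_mul]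
  have h1 := nm_cast hD z
  have h2 := nm_cast hD w
  rw [hz] at h1
  rw [hw] at h2
  refine ⟨z.im ^ 2 - w.im ^ 2, ?_⟩
  rw [QuadraticAlgebra.im_star, QuadraticAlgebra.re_star]
  linear_combination (w.im ^ 2) * h1 - (z.im ^ 2) * h2

theorem unit_of_dvd (hD : t ^ 2 < 4 * c) {p : ℕ} (hp : p.Prime) {z w : Qd t c} (hz : nm z = p)
    (hw : nm w = p) (h : (p : ℤ) ∣ z.re * w.im - z.im * w.re) :
    ∃ e : Qd t c, nm e = 1 ∧ w = e * z := by
  have hp' : Prime (p : ℤ) := Nat.prime_iff_prime_int.1 hp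
  have hp0 : (p : ℤ) ≠ 0 := hp'.ne_zero
  have h1 := nm_cast hD z
  have h2 := nm_cast hD w
  rw [hz] at h1
  rw [hw] at h2
  obtain ⟨d, hd⟩ := h
  set i : ℤ := z.re * w.re + t * z.im * w.re + c * z.im * w.im with hi
  have h3 : i ^ 2 + t * i * (p * d) + c * (p * d) ^ 2 = p ^ 2 := by
    rw [← hd, hi]
    linear_combination (-(w.re ^ 2 + t * w.re * w.im + c * w.im ^ 2)) * h1 - p * h2
  have h4 : (p : ℤ) ∣ i ^ 2 := by
    refine ⟨p - t * i * d - c * p * d ^ 2, ?_⟩
    linear_combination h3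
  obtain ⟨j, hj⟩ := hp'.dvd_of_dvd_pow h4
  refine ⟨⟨j, d⟩, ?_, ?_⟩
  · have h5 : (p : ℤ) ^ 2 * (j ^ 2 + t * j * d + c * d ^ 2) = p ^ 2 * 1 := by
      rw [hj] at h3
      linear_combination h3
    have h6 := mul_left_cancel₀ (pow_ne_zero 2 hp0) h5
    have h7 := nm_cast hD (⟨j, d⟩ : Qd t c)
    rw [h6] at h7
    exact_mod_cast h7
  · have h8 : nm ((p : ℕ) : Qd t c) ≠ 0 := by
      rw [nm_natCast]
      have := hp.pos
      positivity
    refine cancel hD h8 ?_
    ext
    · simp only [QuadraticAlgebra.re_mul, QuadraticAlgebra.im_mul, QuadraticAlgebra.re_natCast,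
        QuadraticAlgebra.im_natCast]
      have e1 : (p : ℤ) * w.re = i * z.re + (-c) * ((p * d) * z.im) := by
        rw [← hd, hi]
        linear_combination w.re * h1
      rw [hj] at e1
      linear_combination e1
    · simp only [QuadraticAlgebra.re_mul, QuadraticAlgebra.im_mul, QuadraticAlgebra.re_natCast,
        QuadraticAlgebra.im_natCast]
      have e1 : (p : ℤ) * w.im = i * z.im + (p * d) * z.re + t * ((p * d) * z.im) := by
        rw [← hd, hi]
        linear_combination w.im * h1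
      rw [hj] at e1
      linear_combination e1

theorem disj (hD : t ^ 2 < 4 * c) {p : ℕ} (hp : p.Prime) (hp2 : ¬ (p : ℤ) ∣ 2 * (4 * c - t ^ 2))
    {z : Qd t c} (hz : nm z = p) {x y : Qd t c} (hx : nm x = 1) (hy : nm y = 1)
    (h : x * z = y * star z) : False := by
  have hp' : Prime (p : ℤ) := Nat.prime_iff_prime_int.1 hp
  -- `p` divides `z ^ 2`
  have h1 : z * z = ((p : ℕ) : Qd t c) * (star x * y) := by
    have e1 : star x * (x * z) * z = star x * (y * star z) * z := by rw [h]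
    have e2 : star x * (x * z) * z = (star x * x) * (z * z) := by ring
    have e3 : star x * (y * star z) * z = (star x * y) * (star z * z) := by ring
    rw [e2, e3, star_mul_self' hD, star_mul_self' hD, hx, hz] at e1
    rw [Nat.cast_one, one_mul] at e1
    rw [e1]
    ring
  have h2 : (p : ℤ) ∣ z.im * (2 * z.re + t * z.im) := by
    have h3 := congrArg QuadraticAlgebra.im h1
    simp only [QuadraticAlgebra.im_mul, QuadraticAlgebra.re_natCast,
      QuadraticAlgebra.im_natCast] at h3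
    refine ⟨(star x).re * y.im + (star x).im * y.re + t * (star x).im * y.im, ?_⟩
    linear_combination h3
  rcases hp'.dvd_or_dvd h2 with h3 | h3
  · exact not_dvd hD hp hz h3
  · have h4 := four_nm z
    rw [← nm_cast hD z, hz] at h4
    have h5 : (p : ℤ) ∣ (4 * c - t ^ 2) * z.im ^ 2 := by
      obtain ⟨k, hk⟩ := h3
      refine ⟨4 - p * k ^ 2, ?_⟩
      rw [hk] at h4
      linear_combination -h4
    rcases hp'.dvd_or_dvd h5 with h6 | h6
    · exact hp2 (h6.mul_left 2)
    · exact not_dvd hD hp hz (hp'.dvd_of_dvd_pow h6)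

theorem card_Rs (hD : t ^ 2 < 4 * c) {p : ℕ} (hp : p.Prime)
    (hp2 : ¬ (p : ℤ) ∣ 2 * (4 * c - t ^ 2)) {z : Qd t c} (hz : nm z = p) :
    (Rs t c p).card = 2 * (Rs t c 1).card := by
  classical
  have hz0 : nm z ≠ 0 := by rw [hz]; exact hp.ne_zero
  have hz1 : nm (star z) ≠ 0 := by rw [nm_star]; exact hz0
  have e : Rs t c p = ((Rs t c 1).image fun x => x * z) ∪ ((Rs t c 1).image fun x => x * star z) := by
    ext w
    rw [mem_Rs hD hp.one_lt.le, mem_union, mem_image, mem_image]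
    constructor
    · intro hw
      rcases dvd_or hD hp hz hw with h | h
      · obtain ⟨e, he, h1⟩ := unit_of_dvd hD hp hz hw h
        exact Or.inl ⟨e, (mem_Rs hD le_rfl).2 he, h1.symm⟩
      · obtain ⟨e, he, h1⟩ := unit_of_dvd hD hp hz (by rw [nm_star]; exact hw) h
        refine Or.inr ⟨star e, (mem_Rs hD le_rfl).2 (by rw [nm_star]; exact he), ?_⟩
        rw [← star_star w, h1, star_mul, mul_comm]
    · rintro (⟨x, hx, rfl⟩ | ⟨x, hx, rfl⟩)
      · rw [mem_Rs hD le_rfl] at hx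
        rw [nm_mul, hx, hz, one_mul]
      · rw [mem_Rs hD le_rfl] at hx
        rw [nm_mul, hx, nm_star, hz, one_mul]
  rw [e, card_union_of_disjoint, card_image_of_injective, card_image_of_injective, two_mul]
  · intro x y hxy
    exact cancel hD hz1 (by rw [mul_comm, mul_comm (star z)]; exact hxy)
  · intro x y hxy
    exact cancel hD hz0 (by rw [mul_comm, mul_comm z]; exact hxy)
  · rw [disjoint_left]
    intro w hw hw'
    obtain ⟨x, hx, rfl⟩ := mem_image.1 hw
    obtain ⟨y, hy, h⟩ := mem_image.1 hw'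
    rw [mem_Rs hD le_rfl] at hx hy
    exact disj hD hp hp2 hz hx hy h.symm

theorem card_units_pos (hD : t ^ 2 < 4 * c) : 0 < (Rs t c 1).card :=
  card_pos.2 ⟨1, (mem_Rs hD le_rfl).2 nm_one⟩

end Pool.Agent.N615.RC
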