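import Pool.Agent.N912.RC.Stm
import Pool.Agent.Y772.HG.Tot
import Pool.Agent.Y772.DK.Cc
import Pool.Agent.N615.RC.RC6a

/-!
# The primes represented by the principal form have positive density

Project RC (helper912), task RC6 (subtask 2020).
-/

set_option autoImplicit false
set_option linter.unusedSectionVars false

namespace Pool.Agent.N615.RC

open NumberField Filter Finset Topology
open Pool.Agent.Y773 (LI VM cc TPos)
open Pool.Agent.Y773.G (IsModChar)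
open Pool.Agent.W78.GA
open Pool.Agent.N912.RC (CF S_RC0 S_RC1 S_RC3 S_RC6)

section cls

variable {K : Type} [Field K] [NumberField K] {t c : ℤ}

open Classical in
/-- the number of the generators in the order -/
noncomputable def FF (φ : Qd t c →+* 𝓞 K) (𝔪 𝔟 : Ideal (𝓞 K)) : ℂ :=
  if IsCoprime 𝔟 𝔪 then (({z : Qd t c | Ideal.span {φ z} = 𝔟}.ncard : ℕ) : ℂ) else 0

theorem fin_set (hD : t ^ 2 < 4 * c) {φ : Qd t c →+* 𝓞 K}
    (hN : ∀ z, Ideal.absNorm (Ideal.span {φ z}) = nm z) {𝔟 : Ideal (𝓞 K)} (h : 𝔟 ≠ ⊥) :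
    {z : Qd t c | Ideal.span {φ z} = 𝔟}.Finite := by
  have h1 : 1 ≤ Ideal.absNorm 𝔟 := by
    rw [Nat.one_le_iff_ne_zero, ne_eq, Ideal.absNorm_eq_zero_iff]
    exact h
  refine (Rs t c (Ideal.absNorm 𝔟)).finite_toSet.subset fun z hz => ?_
  rw [Finset.mem_coe, mem_Rs hD h1, ← hN z]
  exact congrArg Ideal.absNorm hz

theorem transport {φ : Qd t c →+* 𝓞 K} {f₀ : ℕ} (hf : ∀ w : 𝓞 K, ∃ z, φ z = (f₀ : 𝓞 K) * w)
    {𝔞 𝔟 : Ideal (𝓞 K)} {x y : 𝓞 K} (hy : y ≠ 0)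
    (hx1 : x - 1 ∈ Ideal.span {((2 * f₀ : ℕ) : 𝓞 K)})
    (hy1 : y - 1 ∈ Ideal.span {((2 * f₀ : ℕ) : 𝓞 K)})
    (h : Ideal.span {x} * 𝔞 = Ideal.span {y} * 𝔟) {z : Qd t c} (hz : Ideal.span {φ z} = 𝔞) :
    ∃ z' : Qd t c, Ideal.span {φ z'} = 𝔟 ∧ y * φ z' = x * φ z := by
  have h1 : Ideal.span {x * φ z} = Ideal.span {y} * 𝔟 := by
    rw [← h, ← hz, Ideal.span_singleton_mul_span_singleton]
  have h2 : x * φ z ∈ Ideal.span {y} := by
    have h3 : x * φ z ∈ Ideal.span {y} * 𝔟 := by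
      rw [← h1]
      exact Ideal.mem_span_singleton_self _
    have h3' : Ideal.span {y} * 𝔟 ≤ Ideal.span {y} := Ideal.mul_le_left
    exact h3' h3
  obtain ⟨w, hw⟩ := Ideal.mem_span_singleton.1 h2
  have h4 : Ideal.span {w} = 𝔟 := by
    rw [hw, ← Ideal.span_singleton_mul_span_singleton] at h1
    have h5 : Ideal.span {y} ≠ 0 := by
      rw [ne_eq, Ideal.zero_eq_bot, Ideal.span_singleton_eq_bot]
      exact hy
    exact mul_left_cancel₀ h5 h1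
  obtain ⟨u, hu⟩ := Ideal.mem_span_singleton.1 hx1
  obtain ⟨v, hv⟩ := Ideal.mem_span_singleton.1 hy1
  obtain ⟨z'', hz''⟩ := hf (2 * (u * φ z - v * w))
  have h6 : φ (z + z'') = w := by
    rw [map_add, hz'']
    push_cast at hu hv
    linear_combination hw - φ z * hu + w * hv
  refine ⟨z + z'', ?_, ?_⟩
  · rw [h6, h4]
  · rw [h6, hw]

theorem FF_le (hD : t ^ 2 < 4 * c) {φ : Qd t c →+* 𝓞 K} (hφ : Function.Injective φ)
    (hN : ∀ z, Ideal.absNorm (Ideal.span {φ z}) = nm z) {f₀ : ℕ}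
    (hf : ∀ w : 𝓞 K, ∃ z, φ z = (f₀ : 𝓞 K) * w) {𝔞 𝔟 : Ideal (𝓞 K)} {x y : 𝓞 K} (h𝔟 : 𝔟 ≠ ⊥)
    (hx : x ≠ 0) (hy : y ≠ 0) (hx1 : x - 1 ∈ Ideal.span {((2 * f₀ : ℕ) : 𝓞 K)})
    (hy1 : y - 1 ∈ Ideal.span {((2 * f₀ : ℕ) : 𝓞 K)})
    (h : Ideal.span {x} * 𝔞 = Ideal.span {y} * 𝔟) :
    {z : Qd t c | Ideal.span {φ z} = 𝔞}.ncard ≤ {z : Qd t c | Ideal.span {φ z} = 𝔟}.ncard := by
  classical
  choose! g hg1 hg2 using fun (z : Qd t c) (hz : Ideal.span {φ z} = 𝔞) =>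
    transport hf hy hx1 hy1 h hz
  refine Set.ncard_le_ncard_of_injOn g hg1 ?_ (fin_set hD hN h𝔟)
  intro z hz z' hz' e
  have e1 := hg2 z hz
  have e2 := hg2 z' hz'
  rw [e] at e1
  have e3 : x * φ z = x * φ z' := by rw [← e1, ← e2]
  exact hφ (mul_left_cancel₀ hx e3)

theorem FF_cf (hD : t ^ 2 < 4 * c) {φ : Qd t c →+* 𝓞 K} (hφ : Function.Injective φ)
    (hN : ∀ z, Ideal.absNorm (Ideal.span {φ z}) = nm z) {f₀ : ℕ}
    (hf : ∀ w : 𝓞 K, ∃ z, φ z = (f₀ : 𝓞 K) * w)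
    (htop : Ideal.span {((2 * f₀ : ℕ) : 𝓞 K)} ≠ ⊤) :
    CF (Ideal.span {((2 * f₀ : ℕ) : 𝓞 K)}) (FF φ (Ideal.span {((2 * f₀ : ℕ) : 𝓞 K)})) where
  supp 𝔞 h := by
    unfold FF
    rw [if_neg h]
  cls 𝔞 𝔟 x y ha hb hx hy hx1 hy1 h := by
    have hne : ∀ 𝔠 : Ideal (𝓞 K), IsCoprime 𝔠 (Ideal.span {((2 * f₀ : ℕ) : 𝓞 K)}) → 𝔠 ≠ ⊥ := by
      rintro 𝔠 hc rfl
      rw [← Ideal.zero_eq_bot, isCoprime_zero_left, Ideal.isUnit_iff] at hc
      exact htop hc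
    unfold FF
    rw [if_pos ha, if_pos hb]
    congr 1
    exact le_antisymm (FF_le hD hφ hN hf (hne 𝔟 hb) hx hy hx1 hy1 h)
      (FF_le hD hφ hN hf (hne 𝔞 ha) hy hx hy1 hx1 h.symm)

theorem FF_top (hD : t ^ 2 < 4 * c) {φ : Qd t c →+* 𝓞 K}
    (hN : ∀ z, Ideal.absNorm (Ideal.span {φ z}) = nm z) (𝔪 : Ideal (𝓞 K)) : FF φ 𝔪 ⊤ ≠ 0 := by
  unfold FF
  rw [if_pos (by rw [← Ideal.one_eq_top]; exact isCoprime_one_left)]
  have h1 : {z : Qd t c | Ideal.span {φ z} = ⊤}.ncard ≠ 0 := by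
    rw [ne_eq, Set.ncard_eq_zero (fin_set hD hN top_ne_bot)]
    intro h
    have : (1 : Qd t c) ∈ {z : Qd t c | Ideal.span {φ z} = ⊤} := by
      show Ideal.span {φ 1} = ⊤
      rw [map_one, Ideal.span_singleton_one]
    rw [h] at this
    exact this
  exact_mod_cast h1

theorem FF_nn (φ : Qd t c →+* 𝓞 K) (𝔪 𝔟 : Ideal (𝓞 K)) :
    0 ≤ (FF φ 𝔪 𝔟).re ∧ (FF φ 𝔪 𝔟).im = 0 := by
  unfold FF
  split_ifs
  · rw [Complex.natCast_re, Complex.natCast_im]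
    exact ⟨Nat.cast_nonneg _, rfl⟩
  · simp

theorem sum_FF (hD : t ^ 2 < 4 * c) {φ : Qd t c →+* 𝓞 K}
    (hN : ∀ z, Ideal.absNorm (Ideal.span {φ z}) = nm z) {f₀ p : ℕ} (hp : p.Prime)
    (hp2 : ¬ p ∣ 2 * f₀) :
    ∑ᶠ 𝔭 ∈ {𝔭 : Ideal (𝓞 K) | Ideal.absNorm 𝔭 = p},
      FF φ (Ideal.span {((2 * f₀ : ℕ) : 𝓞 K)}) 𝔭 = ((Rs t c p).card : ℂ) := by
  classical
  have hfin : {𝔭 : Ideal (𝓞 K) | Ideal.absNorm 𝔭 = p}.Finite :=
    Ideal.finite_setOfPred_absNorm_eq p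
  rw [finsum_mem_eq_finite_toFinset_sum _ hfin]
  have h1 : ∀ 𝔭 ∈ hfin.toFinset, FF φ (Ideal.span {((2 * f₀ : ℕ) : 𝓞 K)}) 𝔭 =
      (((Rs t c p).filter fun z => Ideal.span {φ z} = 𝔭).card : ℂ) := by
    intro 𝔭 h𝔭
    have h𝔭' : Ideal.absNorm 𝔭 = p := by simpa using h𝔭
    have hcop : IsCoprime 𝔭 (Ideal.span {((2 * f₀ : ℕ) : 𝓞 K)}) := by
      rw [Ideal.isCoprime_iff_exists]
      have h2 : IsCoprime (p : ℤ) ((2 * f₀ : ℕ) : ℤ) :=
        Nat.isCoprime_iff_coprime.2 ((Nat.Prime.coprime_iff_not_dvd hp).2 hp2)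
      obtain ⟨a, b, hab⟩ := h2
      refine ⟨(a : 𝓞 K) * (p : 𝓞 K), ?_, (b : 𝓞 K) * ((2 * f₀ : ℕ) : 𝓞 K), ?_, ?_⟩
      · have := Ideal.absNorm_mem 𝔭
        rw [h𝔭'] at this
        exact Ideal.mul_mem_left _ _ this
      · exact Ideal.mul_mem_left _ _ (Ideal.mem_span_singleton_self _)
      · exact_mod_cast congrArg (Int.cast : ℤ → 𝓞 K) hab
    unfold FF
    rw [if_pos hcop, ← Set.ncard_coe_finset]
    congr 2
    ext z
    rw [Finset.coe_filter]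
    constructor
    · intro hz
      refine ⟨(mem_Rs hD hp.one_lt.le).2 ?_, hz⟩
      rw [← hN z, ← h𝔭']
      exact congrArg Ideal.absNorm hz
    · exact fun hz => hz.2
  rw [sum_congr rfl h1, ← Nat.cast_sum, ← card_eq_sum_card_fiberwise]
  intro z hz
  rw [Finset.mem_coe, mem_Rs hD hp.one_lt.le] at hz
  simp only [Set.Finite.coe_toFinset]
  show Ideal.absNorm (Ideal.span {φ z}) = p
  rw [hN, hz]

end cls

/-! ### The asymptotic formula -/

/-- the sum over the numbers which are not prime, and the divisors of `M` -/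
theorem err_le (M : ℕ) (hM : M ≠ 0) : ∃ C : ℝ, 0 ≤ C ∧ ∀ x : ℝ, 1 ≤ x →
    ∑ n ∈ (Icc 1 ⌊x⌋₊).filter (fun n => ¬ n.Prime ∨ n ∣ M), ArithmeticFunction.vonMangoldt n ≤
      C * Real.sqrt x := by
  obtain ⟨C, hC⟩ := Chebyshev.psi_sub_theta_le_mul_sqrt
  refine ⟨|C| + ∑ n ∈ M.divisors, ArithmeticFunction.vonMangoldt n, ?_, fun x hx => ?_⟩
  · have : 0 ≤ ∑ n ∈ M.divisors, ArithmeticFunction.vonMangoldt n :=
      sum_nonneg fun n _ => ArithmeticFunction.vonMangoldt_nonneg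
    positivity
  have h1 : (Icc 1 ⌊x⌋₊).filter (fun n => ¬ n.Prime ∨ n ∣ M) ⊆
      ((Ioc 0 ⌊x⌋₊).filter fun n => ¬ n.Prime) ∪ M.divisors := by
    intro n hn
    rw [mem_filter, mem_Icc] at hn
    rw [mem_union, mem_filter, mem_Ioc, Nat.mem_divisors]
    rcases hn.2 with h | h
    · exact Or.inl ⟨⟨hn.1.1, hn.1.2⟩, h⟩
    · exact Or.inr ⟨h, hM⟩
  have h2 := sum_le_sum_of_subset_of_nonneg (f := fun n => ArithmeticFunction.vonMangoldt n) h1
    fun n _ _ => ArithmeticFunction.vonMangoldt_nonneg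
  have h3 : ∑ n ∈ ((Ioc 0 ⌊x⌋₊).filter fun n => ¬ n.Prime) ∪ M.divisors,
      ArithmeticFunction.vonMangoldt n ≤
      ∑ n ∈ (Ioc 0 ⌊x⌋₊).filter (fun n => ¬ n.Prime), ArithmeticFunction.vonMangoldt n +
        ∑ n ∈ M.divisors, ArithmeticFunction.vonMangoldt n := by
    rw [← sum_union_inter]
    have : 0 ≤ ∑ n ∈ ((Ioc 0 ⌊x⌋₊).filter fun n => ¬ n.Prime) ∩ M.divisors,
        ArithmeticFunction.vonMangoldt n :=
      sum_nonneg fun n _ => ArithmeticFunction.vonMangoldt_nonneg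
    linarith
  rw [← Chebyshev.psi_sub_theta_eq_sum_not_prime] at h3
  have h4 := hC x
  have h5 : 1 ≤ Real.sqrt x := Real.one_le_sqrt.2 hx
  have h6 : C * Real.sqrt x ≤ |C| * Real.sqrt x :=
    mul_le_mul_of_nonneg_right (le_abs_self C) (by positivity)
  have h7 : 0 ≤ ∑ n ∈ M.divisors, ArithmeticFunction.vonMangoldt n :=
    sum_nonneg fun n _ => ArithmeticFunction.vonMangoldt_nonneg
  have h8 : ∑ n ∈ M.divisors, ArithmeticFunction.vonMangoldt n ≤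
      (∑ n ∈ M.divisors, ArithmeticFunction.vonMangoldt n) * Real.sqrt x :=
    le_mul_of_one_le_right h7 h5
  rw [add_mul]
  linarith

/-- comparison of two sums -/
theorem tend_cmp {e : ℕ → ℂ} {M : ℕ} (hM : M ≠ 0) {C : ℝ} (hC : 0 ≤ C)
    (h0 : ∀ n, n.Prime → ¬ n ∣ M → e n = 0)
    (h1 : ∀ n, ‖e n‖ ≤ C * ArithmeticFunction.vonMangoldt n) :
    Tendsto (fun x : ℝ => (∑ n ∈ Icc 1 ⌊x⌋₊, e n) / (x : ℂ)) atTop (𝓝 0) := by
  obtain ⟨C', hC', hb⟩ := err_le M hM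
  rw [tendsto_zero_iff_norm_tendsto_zero]
  have hlim : Tendsto (fun x : ℝ => (C * C') * (Real.sqrt x)⁻¹) atTop (𝓝 0) := by
    have := (Real.tendsto_sqrt_atTop.inv_tendsto_atTop).const_mul (C * C')
    rwa [mul_zero] at this
  refine squeeze_zero' (Eventually.of_forall fun x => norm_nonneg _) ?_ hlim
  filter_upwards [eventually_ge_atTop 1] with x hx
  have hx0 : 0 < x := by linarith
  have hs : 0 < Real.sqrt x := Real.sqrt_pos.2 hx0
  rw [norm_div, Complex.norm_real, Real.norm_of_nonneg hx0.le, div_le_iff₀ hx0]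
  have h2 : ∑ n ∈ Icc 1 ⌊x⌋₊, e n =
      ∑ n ∈ (Icc 1 ⌊x⌋₊).filter (fun n => ¬ n.Prime ∨ n ∣ M), e n := by
    rw [sum_filter]
    refine sum_congr rfl fun n _ => ?_
    by_cases h : ¬ n.Prime ∨ n ∣ M
    · rw [if_pos h]
    · rw [if_neg h]
      push Not at h
      exact h0 n h.1 h.2
  rw [h2]
  have h3 : ‖∑ n ∈ (Icc 1 ⌊x⌋₊).filter (fun n => ¬ n.Prime ∨ n ∣ M), e n‖ ≤
      C * ∑ n ∈ (Icc 1 ⌊x⌋₊).filter (fun n => ¬ n.Prime ∨ n ∣ M),
        ArithmeticFunction.vonMangoldt n := by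
    rw [mul_sum]
    exact norm_sum_le_of_le _ fun n _ => h1 n
  have h4 := mul_le_mul_of_nonneg_left (hb x hx) hC
  have h5 : C * C' * (Real.sqrt x)⁻¹ * x = C * (C' * Real.sqrt x) := by
    have : x = Real.sqrt x * Real.sqrt x := (Real.mul_self_sqrt hx0.le).symm
    field_simp
    rw [Real.sq_sqrt hx0.le]
  rw [h5]
  exact h3.trans h4

theorem rc6 (h0 : S_RC0) (h1 : S_RC1) (h3 : S_RC3) : S_RC6 := by
  classical
  intro t c hD
  obtain ⟨K, _, _, _, φ, f₀, hK, hf₀, hφ, hN, hf⟩ := h0 t c hD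
  set 𝔪 : Ideal (𝓞 K) := Ideal.span {((2 * f₀ : ℕ) : 𝓞 K)} with h𝔪
  have hbot : 𝔪 ≠ ⊥ := by
    rw [h𝔪, ne_eq, Ideal.span_singleton_eq_bot]
    have : (2 * f₀ : ℕ) ≠ 0 := by omega
    exact_mod_cast this
  have htop : 𝔪 ≠ ⊤ := by
    intro h
    have h2 : Ideal.absNorm 𝔪 = (2 * f₀) ^ 2 := by
      rw [h𝔪, Ideal.absNorm_span_singleton]
      have h4 : ((2 * f₀ : ℕ) : 𝓞 K) = algebraMap ℤ (𝓞 K) ((2 * f₀ : ℕ) : ℤ) := by simp
      rw [h4, Algebra.norm_algebraMap, RingOfIntegers.rank, hK, Int.natAbs_pow, Int.natAbs_natCast]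
    rw [h, Ideal.absNorm_top] at h2
    have : 2 ≤ 2 * f₀ := by omega
    nlinarith
  obtain ⟨n, η, a, g1, g2, g3, g4, g5⟩ := h3 K hK 𝔪 hbot htop (FF φ 𝔪)
    (FF_cf hD hφ hN hf htop)
  obtain ⟨ha0, ha1⟩ := g5 (FF_nn φ 𝔪) (FF_top hD hN 𝔪)
  -- the sums of the characters
  have k1 : ∀ i, Tendsto (fun x : ℝ => (∑ n ∈ Icc 1 ⌊x⌋₊,
      (ArithmeticFunction.vonMangoldt n : ℂ) * cc (η i) n) / (x : ℂ)) atTop
      (𝓝 (if i = 0 then 1 else 0)) := by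
    intro i
    obtain ⟨δ, -, d1, d2, d3⟩ := h1 K 𝔪 _ (η i) (g1 i)
    by_cases hi : i = 0
    · rw [if_pos hi]
      have := d2 (by rw [hi]; exact g2)
      rw [this, Complex.ofReal_one] at d3
      exact d3
    · rw [if_neg hi]
      have := d1 (g3 i hi)
      rw [this, Complex.ofReal_zero] at d3
      exact d3
  set g : ℕ → ℂ := fun n => ∑ i, a i * ((ArithmeticFunction.vonMangoldt n : ℂ) * cc (η i) n)
    with hg
  have k2 : Tendsto (fun x : ℝ => (∑ n ∈ Icc 1 ⌊x⌋₊, g n) / (x : ℂ)) atTop (𝓝 (a 0)) := by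
    have h4 := tendsto_finsetSum (univ : Finset (Fin (n + 1)))
      fun i _ => (k1 i).const_mul (a i)
    have h5 : ∑ i, a i * (if i = 0 then (1 : ℂ) else 0) = a 0 := by
      rw [sum_eq_single 0]
      · rw [if_pos rfl, mul_one]
      · intro i _ hi
        rw [if_neg hi, mul_zero]
      · intro h
        exact absurd (mem_univ _) h
    rw [h5] at h4
    refine h4.congr fun x => ?_
    rw [hg]
    simp only
    rw [sum_comm, sum_div]
    refine sum_congr rfl fun i _ => ?_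
    rw [← mul_sum, mul_div_assoc]
  -- the values at the primes
  set u : ℕ := (Rs t c 1).card with hu
  have hu0 : 0 < u := card_units_pos hD
  set D : ℕ := (4 * c - t ^ 2).natAbs with hDdef
  have hD0 : D ≠ 0 := by
    rw [hDdef, Int.natAbs_ne_zero]
    omega
  set M : ℕ := 2 * f₀ * (2 * D) with hMdef
  have hM0 : M ≠ 0 := by positivity
  set r : ℕ → ℂ := fun n => if n.Prime ∧ ∃ ϖ : Qd t c, nm ϖ = n then (Real.log n : ℂ) else 0
    with hr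
  have k3 : ∀ p : ℕ, p.Prime → ¬ p ∣ M → g p = 2 * u * r p := by
    intro p hp hpM
    have p1 : ¬ p ∣ 2 * f₀ := fun h => hpM (h.mul_right _)
    have p2 : ¬ (p : ℤ) ∣ 2 * (4 * c - t ^ 2) := by
      intro h
      apply hpM
      have h4 : p ∣ 2 * D := by
        have h5 := Int.natCast_dvd.1 h
        rw [Int.natAbs_mul] at h5
        exact h5
      exact h4.mul_left _
    have h4 : g p = (Real.log p : ℂ) * ((Rs t c p).card : ℂ) := by
      rw [hg]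
      simp only
      rw [ArithmeticFunction.vonMangoldt_apply_prime hp, ← sum_FF hD hN hp p1]
      have hfin : {𝔭 : Ideal (𝓞 K) | Ideal.absNorm 𝔭 = p}.Finite :=
        Ideal.finite_setOfPred_absNorm_eq p
      rw [finsum_mem_eq_finite_toFinset_sum _ hfin]
      have h5 : ∀ i, a i * ((Real.log p : ℂ) * cc (η i) p) =
          (Real.log p : ℂ) * ∑ 𝔭 ∈ hfin.toFinset, a i * η i 𝔭 := by
        intro i
        rw [Pool.Agent.Y772.DK.cc_prime (η i) hp, finsum_mem_eq_finite_toFinset_sum _ hfin,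
          ← mul_sum]
        ring
      rw [sum_congr rfl fun i _ => h5 i, ← mul_sum, sum_comm]
      congr 1
      refine sum_congr rfl fun 𝔭 _ => ?_
      rw [g4]
    rw [h4, hr]
    simp only
    by_cases h5 : ∃ ϖ : Qd t c, nm ϖ = p
    · obtain ⟨ϖ, hϖ⟩ := h5
      rw [if_pos ⟨hp, ϖ, hϖ⟩, card_Rs hD hp p2 hϖ, ← hu]
      push_cast
      ring
    · rw [if_neg (fun h => h5 h.2)]
      have h6 : (Rs t c p).card = 0 := by
        rw [card_eq_zero, eq_empty_iff_forall_notMem]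
        intro z hz
        exact h5 ⟨z, (mem_Rs hD hp.one_lt.le).1 hz⟩
      rw [h6]
      simp
  -- the bound of the error
  have k4 : ∀ n, ‖g n‖ ≤ (∑ i, ‖a i‖ * Module.finrank ℚ K) * ArithmeticFunction.vonMangoldt n := by
    intro n
    rw [sum_mul, hg]
    refine norm_sum_le_of_le _ fun i _ => ?_
    rw [norm_mul, norm_mul, Complex.norm_real,
      Real.norm_of_nonneg ArithmeticFunction.vonMangoldt_nonneg, mul_assoc]
    refine mul_le_mul_of_nonneg_left ?_ (norm_nonneg _)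
    rw [mul_comm]
    exact mul_le_mul_of_nonneg_right (Pool.Agent.Y772.DK.norm_cc_le (η i)
      (fun 𝔞 => Pool.Agent.Y772.G.mc_le (g1 i) 𝔞) n) ArithmeticFunction.vonMangoldt_nonneg
  have k5 : ∀ n, ‖r n‖ ≤ ArithmeticFunction.vonMangoldt n := by
    intro n
    rw [hr]
    simp only
    split_ifs with h
    · rw [ArithmeticFunction.vonMangoldt_apply_prime h.1, Complex.norm_real,
        Real.norm_of_nonneg (Real.log_natCast_nonneg n)]
    · rw [norm_zero]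
      exact ArithmeticFunction.vonMangoldt_nonneg
  have k6 : Tendsto (fun x : ℝ => (∑ n ∈ Icc 1 ⌊x⌋₊, (g n - 2 * u * r n)) / (x : ℂ)) atTop
      (𝓝 0) := by
    refine tend_cmp hM0 (C := ∑ i, ‖a i‖ * Module.finrank ℚ K + 2 * u) (by positivity)
      (fun n hn hnM => by rw [k3 n hn hnM, sub_self]) fun n => ?_
    refine (norm_sub_le _ _).trans ?_
    rw [add_mul, norm_mul, norm_mul, Complex.norm_natCast]
    have h4 := k4 n
    have h5 := mul_le_mul_of_nonneg_left (k5 n) (show (0 : ℝ) ≤ 2 * u by positivity)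
    have h6 : ‖(2 : ℂ)‖ = 2 := by simp
    rw [h6]
    linarith
  have k7 : Tendsto (fun x : ℝ => (∑ n ∈ Icc 1 ⌊x⌋₊, r n) / (x : ℂ)) atTop
      (𝓝 (a 0 / (2 * u))) := by
    have h4 := (k2.sub k6).div_const ((2 : ℂ) * u)
    rw [sub_zero] at h4
    refine h4.congr fun x => ?_
    rw [sum_sub_distrib, ← mul_sum]
    have h5 : (2 : ℂ) * u ≠ 0 := by
      have : (u : ℂ) ≠ 0 := by exact_mod_cast hu0.ne'
      exact mul_ne_zero two_ne_zero this
    rw [← sub_div, sub_sub_cancel, mul_div_assoc, mul_div_cancel_left₀ _ h5]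
  refine ⟨(a 0).re / (2 * u), div_pos ha0 (by positivity), ?_⟩
  have k8 := (Complex.continuous_re.tendsto _).comp k7
  have h9 : (a 0 / (2 * u) : ℂ).re = (a 0).re / (2 * u) := by
    have : (2 * u : ℂ) = ((2 * u : ℝ) : ℂ) := by push_cast; rfl
    rw [this, Complex.div_ofReal_re]
  rw [h9] at k8
  refine k8.congr fun x => ?_
  have h10 : ∑ n ∈ Icc 1 ⌊x⌋₊, r n = ((∑ p ∈ (Icc 1 ⌊x⌋₊).filter
      (fun p => p.Prime ∧ ∃ ϖ : Qd t c, nm ϖ = p), Real.log p : ℝ) : ℂ) := by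
    rw [Complex.ofReal_sum, sum_filter]
  rw [Function.comp_apply, h10, Complex.div_ofReal_re, Complex.ofReal_re]

end Pool.Agent.N615.RC
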